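import Mathlib
import Pool.Agent.HFL.THM

set_option autoImplicit false

/-!
The Hadamard bound `√(n+1)` for the least norm of an interpolation projector on the cube is not
sharp: `θ_n ≤ c √n` with a constant `c < 1`, for all large `n`.
-/

namespace Pool.Agent.Results.MP_4e07e5_an.BelowHadamard

open Filter Pool.Agent.H37.Cube

/-- There is a constant `c < 1` with `θ_n ≤ c √n` for all sufficiently large `n`. -/
theorem result : ∃ c : ℝ, c < 1 ∧ ∃ n0 : ℕ, ∀ n : ℕ, n0 ≤ n → theta n ≤ c * Real.sqrt n := by
  obtain ⟨c, hc, h⟩ := Pool.Agent.HFL.theta_small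
  exact ⟨c, hc, eventually_atTop.1 h⟩

end Pool.Agent.Results.MP_4e07e5_an.BelowHadamard
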