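import Mathlib
import Pool.Agent.H37.Cube.Basis
import Pool.Agent.PCB.MAT
import Pool.Agent.PCB.RED

set_option autoImplicit false

/-!
Linear interpolation projectors on the cube are worse, by a constant factor, than the best linear
projections: `θ_n ≥ (√(2/π) + c) √n` for some `c > 0` and all large `n`.
-/

namespace Pool.Agent.Results.MP_4e07e5_an.BeyondProjectionConstant

open Finset Pool.Agent.H37.Cube Pool.Agent.PCB

/-- There is a constant `c > 0` with `θ_n ≥ (√(2/π) + c) √n` for all sufficiently large `n`. -/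
theorem result : ∃ c : ℝ, 0 < c ∧ ∃ n0 : ℕ, ∀ n : ℕ, n0 ≤ n →
    (Real.sqrt (2 / Real.pi) + c) * Real.sqrt n ≤ theta n := by
  obtain ⟨c, hc, N0, h⟩ := matrix_bound
  refine ⟨c, hc, N0, fun n hn => ?_⟩
  refine le_csInf (nodes_nonempty n) ?_
  rintro r ⟨S, hS, rfl⟩
  obtain ⟨A, P, hA, hPA, hM⟩ := exists_matrix S hS
  have h1 := h (n + 1) (by omega) A P hA hPA _ hM
  have h2 : Real.sqrt (n : ℝ) ≤ Real.sqrt ((n + 1 : ℕ) : ℝ) :=
    Real.sqrt_le_sqrt (by push_cast; linarith)
  have h3 : 0 ≤ Real.sqrt (2 / Real.pi) + c := by positivity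
  exact (mul_le_mul_of_nonneg_left h2 h3).trans h1

end Pool.Agent.Results.MP_4e07e5_an.BeyondProjectionConstant
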