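import Mathlib
import Pool.Agent.H37.Cube.Basis
import Pool.Agent.H37.Cube.Signs

set_option autoImplicit false

/-!
Lower bounds for the norms of linear interpolation projectors on the cube.
-/

namespace Pool.Agent.Results.MP_4e07e5_an.LowerBound

open Finset Pool.Agent.H37.Cube

/-- The vertex of the cube given by a set of signs: the `i`-th coordinate is `1` if the signs with
numbers `0` and `i + 1` agree. -/
noncomputable def vtx {n : ℕ} (S : Finset (Fin (n + 1))) : Fin n → ℝ :=
  fun i => by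
    classical
    exact if (0 ∈ S ↔ i.succ ∈ S) then 1 else 0

theorem vtx_mem {n : ℕ} (S : Finset (Fin (n + 1))) : vtx S ∈ Q n := by
  constructor
  · intro i
    unfold vtx
    split_ifs <;> simp
  · intro i
    unfold vtx
    split_ifs <;> simp

theorem affine_bound {n : ℕ} (F : (Fin n → ℝ) →ᵃ[ℝ] ℝ) (t : Fin n → ℝ) (ht : t ∈ Q n)
    (h1 : F t = 1) :
    2 * (n.choose (n / 2) : ℕ) ≤ ∑ S : Finset (Fin (n + 1)), |F (vtx S)| := by
  classical
  set b : Fin n → ℝ := fun i => F.linear (Pi.single i 1) with hb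
  have hF : ∀ s : Fin n → ℝ, F s = F 0 + ∑ i, b i * s i := by
    intro s
    have h2 := congrFun (AffineMap.decomp F) s
    have h3 : F.linear s = ∑ i, s i • F.linear (Pi.single i 1) := by
      have h4 := LinearMap.pi_apply_eq_sum_univ F.linear s
      rw [h4]
      refine Finset.sum_congr rfl fun i _ => ?_
      congr 2
      funext j
      rw [Pi.single_apply]
      simp [eq_comm]
    rw [h2]
    simp only [Pi.add_apply]
    rw [h3, add_comm]
    congr 1
    refine Finset.sum_congr rfl fun i _ => ?_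
    rw [smul_eq_mul, mul_comm]
  set u : Fin (n + 1) → ℝ := Fin.cons (F 0 + ∑ i, b i / 2) (fun i => b i / 2) with hu
  have hsum : 1 ≤ ∑ i, |u i| := by
    rw [Fin.sum_univ_succ]
    simp only [hu, Fin.cons_zero, Fin.cons_succ]
    have h2 : (1 : ℝ) = (F 0 + ∑ i, b i / 2) + ∑ i, b i / 2 * (2 * t i - 1) := by
      refine h1.symm.trans ((hF t).trans ?_)
      rw [add_assoc, ← Finset.sum_add_distrib]
      congr 1
      refine Finset.sum_congr rfl fun i _ => ?_
      ring
    calc (1 : ℝ) = (F 0 + ∑ i, b i / 2) + ∑ i, b i / 2 * (2 * t i - 1) := h2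
      _ ≤ |F 0 + ∑ i, b i / 2| + |∑ i, b i / 2 * (2 * t i - 1)| :=
        add_le_add (le_abs_self _) (le_abs_self _)
      _ ≤ |F 0 + ∑ i, b i / 2| + ∑ i, |b i / 2| := by
        refine add_le_add le_rfl ((Finset.abs_sum_le_sum_abs _ _).trans ?_)
        refine Finset.sum_le_sum fun i _ => ?_
        rw [abs_mul]
        have h0 : 0 ≤ t i := ht.1 i
        have h1 : t i ≤ 1 := ht.2 i
        have h2 : |2 * t i - 1| ≤ 1 := by
          rw [abs_le]
          constructor <;> linarith
        calc |b i / 2| * |2 * t i - 1| ≤ |b i / 2| * 1 :=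
              mul_le_mul_of_nonneg_left h2 (abs_nonneg _)
          _ = _ := mul_one _
  have hval : ∀ S : Finset (Fin (n + 1)),
      |∑ i, (if i ∈ S then u i else -u i)| = |F (vtx S)| := by
    intro S
    rw [hF (vtx S), Fin.sum_univ_succ]
    simp only [hu, Fin.cons_zero, Fin.cons_succ]
    by_cases h0 : (0 : Fin (n + 1)) ∈ S
    · rw [if_pos h0]
      congr 1
      rw [add_assoc, ← Finset.sum_add_distrib]
      congr 1
      refine Finset.sum_congr rfl fun i _ => ?_
      unfold vtx
      by_cases hi : i.succ ∈ S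
      · rw [if_pos hi, if_pos (iff_of_true h0 hi)]
        ring
      · rw [if_neg hi, if_neg (by tauto)]
        ring
    · rw [if_neg h0, ← abs_neg]
      congr 1
      rw [neg_add, neg_neg, ← Finset.sum_neg_distrib, add_assoc, ← Finset.sum_add_distrib]
      congr 1
      refine Finset.sum_congr rfl fun i _ => ?_
      unfold vtx
      by_cases hi : i.succ ∈ S
      · rw [if_pos hi, if_neg (by tauto)]
        ring
      · rw [if_neg hi, if_pos (iff_of_false h0 hi)]
        ring
  calc (2 * (n.choose (n / 2) : ℕ) : ℝ) ≤ 2 * (n.choose (n / 2) : ℕ) * ∑ i, |u i| :=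
        le_mul_of_one_le_right (by positivity) hsum
    _ ≤ ∑ S : Finset (Fin (n + 1)), |∑ i, (if i ∈ S then u i else -u i)| := signs_bound n u
    _ = ∑ S : Finset (Fin (n + 1)), |F (vtx S)| := Finset.sum_congr rfl fun S _ => hval S

theorem norm_bound {n : ℕ} (S : Nodes n) (hS : ∀ j, S j ∈ Q n) :
    ((n : ℝ) + 1) * (n.choose (n / 2) : ℕ) / 2 ^ n ≤ ‖proj S hS‖ := by
  classical
  have h1 : ∑ T : Finset (Fin (n + 1)), ∑ j, |S.coord j (vtx T)| ≤
      ∑ _T : Finset (Fin (n + 1)), ‖proj S hS‖ :=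
    Finset.sum_le_sum fun T _ => sum_le_norm S hS ⟨vtx T, vtx_mem T⟩
  rw [Finset.sum_comm, Finset.sum_const, Finset.card_univ, Fintype.card_finset, Fintype.card_fin,
    nsmul_eq_mul] at h1
  have h2 : ∑ _j : Fin (n + 1), (2 * (n.choose (n / 2) : ℕ) : ℝ) ≤
      ∑ j, ∑ T : Finset (Fin (n + 1)), |S.coord j (vtx T)| :=
    Finset.sum_le_sum fun j _ => affine_bound (S.coord j) (S j) (hS j) (S.coord_apply_eq j)
  rw [Finset.sum_const, Finset.card_univ, Fintype.card_fin, nsmul_eq_mul] at h2
  have h3 := h2.trans h1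
  rw [div_le_iff₀ (by positivity)]
  push_cast at h3
  rw [pow_succ] at h3
  nlinarith [h3]

theorem wallis_bound (m : ℕ) :
    Real.sqrt (2 * (2 * m + 1) / Real.pi) ≤ (2 * (m : ℝ) + 1) * ((2 * m).choose m : ℕ) / 4 ^ m := by
  have h1 := Real.Wallis.W_le m
  rw [Real.Wallis.W_eq_factorial_ratio] at h1
  have hpi := Real.pi_pos
  have hf : ((2 * m).choose m : ℝ) = ((2 * m).factorial : ℝ) / ((m.factorial : ℝ) ^ 2) := by
    have h2 : (2 * m).choose m * m.factorial * m.factorial = (2 * m).factorial := by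
      have := Nat.choose_mul_factorial_mul_factorial (show m ≤ 2 * m by omega)
      rwa [show 2 * m - m = m by omega] at this
    rw [eq_div_iff (by positivity), ← h2]
    push_cast
    ring
  have hm : (0 : ℝ) < m.factorial := by exact_mod_cast m.factorial_pos
  have h2m : (0 : ℝ) < (2 * m).factorial := by exact_mod_cast (2 * m).factorial_pos
  apply Real.sqrt_le_iff.2
  constructor
  · positivity
  · rw [hf]
    rw [div_le_div_iff₀ (by positivity) (by norm_num)] at h1
    rw [div_le_iff₀ hpi]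
    have h4 : ((2 : ℝ) ^ (4 * m)) = (4 ^ m) ^ 2 := by
      rw [show (4 : ℝ) = 2 ^ 2 by norm_num, ← pow_mul, ← pow_mul]
      congr 1
      ring
    rw [h4] at h1
    have h5 : ((2 * (m : ℝ) + 1) * (((2 * m).factorial : ℝ) / ((m.factorial : ℝ) ^ 2)) / 4 ^ m) ^ 2 *
        Real.pi = (2 * (m : ℝ) + 1) * (Real.pi * (((2 * m).factorial : ℝ) ^ 2 * (2 * m + 1))) /
          ((4 ^ m) ^ 2 * (m.factorial : ℝ) ^ 4) := by
      field_simp
    rw [h5, le_div_iff₀ (by positivity)]
    have h6 : (0 : ℝ) ≤ 2 * (m : ℝ) + 1 := by positivity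
    nlinarith [mul_le_mul_of_nonneg_left h1 h6]

theorem sqrt_bound {n : ℕ} (hn : 1 ≤ n) :
    Real.sqrt (2 * n / Real.pi) ≤ ((n : ℝ) + 1) * (n.choose (n / 2) : ℕ) / 2 ^ n := by
  rcases Nat.even_or_odd' n with ⟨m, rfl | rfl⟩
  · have h2 : 2 * m / 2 = m := by omega
    rw [h2]
    refine (Real.sqrt_le_sqrt ?_).trans ((wallis_bound m).trans (le_of_eq ?_))
    · refine div_le_div_of_nonneg_right ?_ Real.pi_pos.le
      push_cast
      linarith
    · push_cast
      rw [pow_mul]
      norm_num
  · have h2 : (2 * m + 1) / 2 = m := by omega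
    rw [h2]
    refine (Real.sqrt_le_sqrt ?_).trans ((wallis_bound m).trans (le_of_eq ?_))
    · refine div_le_div_of_nonneg_right ?_ Real.pi_pos.le
      push_cast
      linarith
    · have h3 : (m + 1) * (2 * m + 1).choose m = (2 * m + 1) * (2 * m).choose m := by
        have h4 := Nat.add_one_mul_choose_eq (2 * m) m
        have h5 : (2 * m + 1).choose (m + 1) = (2 * m + 1).choose m := by
          rw [← Nat.choose_symm_of_eq_add]
          omega
        rw [h5] at h4
        linarith
      have h6 : ((m : ℝ) + 1) * ((2 * m + 1).choose m : ℕ) = (2 * m + 1) * ((2 * m).choose m : ℕ) := by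
        exact_mod_cast h3
      rw [div_eq_div_iff (by positivity) (by positivity)]
      push_cast
      rw [pow_succ, pow_mul]
      norm_num
      linear_combination (-2 * 4 ^ m) * h6

/-- For every `n ≥ 1`: every interpolation projector on the cube `[0,1]^n` has norm at least
`(n+1) * C(n, ⌊n/2⌋) / 2^n`, and so at least `sqrt (2n/π)`. -/
theorem result : ∀ n : ℕ, 1 ≤ n →
    ((n : ℝ) + 1) * (n.choose (n / 2) : ℕ) / 2 ^ n ≤ theta n ∧
      Real.sqrt (2 * n / Real.pi) ≤ theta n := by
  intro n hn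
  have h : ((n : ℝ) + 1) * (n.choose (n / 2) : ℕ) / 2 ^ n ≤ theta n := by
    refine le_csInf (nodes_nonempty n) ?_
    rintro r ⟨S, hS, rfl⟩
    exact norm_bound S hS
  exact ⟨h, (sqrt_bound hn).trans h⟩

end Pool.Agent.Results.MP_4e07e5_an.LowerBound
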